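import Pool.Agent.H37.SFQ.Pointwise
import Pool.Agent.H63.SW.Main

/-!
# Primes in a residue class: the logarithmic count, uniformly in the modulus
-/

set_option autoImplicit false

open Finset
open scoped ComplexConjugate

namespace Pool.Agent.H37.SFG

open Pool.Agent.H37.SFQ

/-- trivial bound for `∑_{p | q} log p` -/
lemma sum_log_dvd_le {q : ℕ} (hq : 0 < q) (S : Finset ℕ) (hS : ∀ p ∈ S, p.Prime ∧ p ∣ q) :
    ∑ p ∈ S, Real.log p ≤ Real.log q := by
  have h1 : S ⊆ q.primeFactors := by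
    intro p hp
    exact Nat.mem_primeFactors.2 ⟨(hS p hp).1, (hS p hp).2, hq.ne'⟩
  have h2 : ∑ p ∈ S, Real.log p ≤ ∑ p ∈ q.primeFactors, Real.log p := by
    refine Finset.sum_le_sum_of_subset_of_nonneg h1 fun p hp _ => ?_
    exact Real.log_natCast_nonneg p
  refine h2.trans ?_
  rw [← Real.log_prod (fun p hp => by
    have := (Nat.prime_of_mem_primeFactors hp).pos
    exact_mod_cast this.ne')]
  have h3 : ∏ p ∈ q.primeFactors, p ≤ q := Nat.le_of_dvd hq (Nat.prod_primeFactors_dvd q)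
  have h4 : 0 < ∏ p ∈ q.primeFactors, p :=
    Finset.prod_pos fun p hp => (Nat.prime_of_mem_primeFactors hp).pos
  rw [← Nat.cast_prod]
  exact Real.log_le_log (by exact_mod_cast h4) (by exact_mod_cast h3)

/-- `φ(q) θ(N; q, r) = N + O(N / log^A N)`, uniformly for `q ≤ (log N)^{1-d0}`. -/
theorem theta_class (d0 : ℝ) (h : 0 < d0) (h1 : d0 < 1) (A : ℕ) : ∃ C : ℝ, 0 < C ∧ ∀ N : ℕ, 2 ≤ N →
    ∀ q r : ℕ, 1 ≤ q → (q : ℝ) ≤ Real.log N ^ (1 - d0) → r < q → r.Coprime q →
    |q.totient * fW 0 N q r - N| ≤ C * N / Real.log N ^ A := by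
  classical
  obtain ⟨C1, hC1⟩ := Pool.Agent.SW.theta_pnt A
  obtain ⟨C2, hC2⟩ := Pool.Agent.SW.theta_char d0 h (A + 1)
  refine ⟨|C1| + |C2| + (A + 1).factorial + 1, by positivity, ?_⟩
  intro N hN q r hq hqN hrq hc
  have : NeZero q := ⟨by omega⟩
  have hN' : (2 : ℝ) ≤ N := by exact_mod_cast hN
  have hN0 : (0 : ℝ) < N := by linarith
  have hL : 0 < Real.log N := Real.log_pos (by linarith)
  set L : ℝ := Real.log N with hLdef
  have hq1 : (1 : ℝ) ≤ q := by exact_mod_cast hq
  have hqL1 : 1 ≤ L := by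
    by_contra hcon
    push Not at hcon
    have : L ^ (1 - d0) < 1 := Real.rpow_lt_one hL.le hcon (by linarith)
    linarith
  have hqL : (q : ℝ) ≤ L := by
    refine hqN.trans ?_
    calc L ^ (1 - d0) ≤ L ^ (1 : ℝ) := Real.rpow_le_rpow_of_exponent_le hqL1 (by linarith)
      _ = L := Real.rpow_one L
  -- the principal character
  have hwp : wp 0 N = (Ioc 0 N).filter Nat.Prime := by
    unfold wp
    rw [zero_add]
  set T : DirichletCharacter ℂ q → ℂ := fun χ => ∑ p ∈ wp 0 N, (Real.log p : ℂ) * χ p with hT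
  have hfour : ((q.totient * fW 0 N q r : ℝ) : ℂ) =
      ∑ χ : DirichletCharacter ℂ q, T χ * conj (χ r) := fW_fourier hrq hc
  have hT1 : ‖T 1 - N‖ ≤ |C1| * N / L ^ A + Real.log q := by
    have e1 : T 1 = ((∑ p ∈ (wp 0 N).filter (fun p => p.Coprime q), Real.log p : ℝ) : ℂ) := by
      rw [hT, Finset.sum_filter, Complex.ofReal_sum]
      refine Finset.sum_congr rfl fun p _ => ?_
      by_cases hp : p.Coprime q
      · rw [if_pos hp]
        have : IsUnit (p : ZMod q) := (ZMod.isUnit_iff_coprime p q).2 hp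
        rw [MulChar.one_apply this, mul_one]
      · rw [if_neg hp]
        have : ¬ IsUnit (p : ZMod q) := fun hu => hp ((ZMod.isUnit_iff_coprime p q).1 hu)
        rw [MulChar.map_nonunit _ this, mul_zero, Complex.ofReal_zero]
    have e2 : Chebyshev.theta (N : ℝ) = ∑ p ∈ wp 0 N, Real.log p := by
      rw [Chebyshev.theta, Nat.floor_natCast, hwp]
    have e3 : Chebyshev.theta (N : ℝ) = ∑ p ∈ (wp 0 N).filter (fun p => p.Coprime q), Real.log p +
        ∑ p ∈ (wp 0 N).filter (fun p => ¬ p.Coprime q), Real.log p := by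
      rw [e2, Finset.sum_filter_add_sum_filter_not]
    have h2 : ∑ p ∈ (wp 0 N).filter (fun p => ¬ p.Coprime q), Real.log p ≤ Real.log q := by
      refine sum_log_dvd_le (by omega) _ fun p hp => ?_
      rw [Finset.mem_filter, mem_wp] at hp
      refine ⟨hp.1.2, ?_⟩
      by_contra hcon
      exact hp.2 ((Nat.Prime.coprime_iff_not_dvd hp.1.2).2 hcon)
    have h3 : 0 ≤ ∑ p ∈ (wp 0 N).filter (fun p => ¬ p.Coprime q), Real.log p :=
      Finset.sum_nonneg fun p _ => Real.log_natCast_nonneg p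
    have h4 := hC1 N hN'
    have h5 : C1 * N / L ^ A ≤ |C1| * N / L ^ A := by
      refine div_le_div_of_nonneg_right ?_ (by positivity)
      exact mul_le_mul_of_nonneg_right (le_abs_self C1) hN0.le
    rw [e1, ← Complex.ofReal_natCast, ← Complex.ofReal_sub, Complex.norm_real, Real.norm_eq_abs]
    have h6 := abs_le.1 (h4.trans h5)
    rw [abs_le]
    constructor <;> linarith [h6.1, h6.2]
  have hTχ : ∀ χ : DirichletCharacter ℂ q, χ ≠ 1 → ‖T χ‖ ≤ |C2| * N / L ^ (A + 1) := by
    intro χ hχ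
    have h2 := hC2 N hN' q hq hqN χ hχ
    rw [Nat.floor_natCast] at h2
    have e1 : T χ = ∑ p ∈ Ioc 0 N with p.Prime, χ p * ((Real.log p : ℝ) : ℂ) := by
      simp only [hT]
      rw [hwp]
      exact Finset.sum_congr rfl fun p _ => mul_comm _ _
    rw [e1]
    refine h2.trans ?_
    refine div_le_div_of_nonneg_right ?_ (by positivity)
    exact mul_le_mul_of_nonneg_right (le_abs_self C2) hN0.le
  -- sum over the characters
  have hcard : (Fintype.card (DirichletCharacter ℂ q) : ℝ) ≤ q := by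
    rw [← Nat.card_eq_fintype_card, DirichletCharacter.card_eq_totient_of_hasEnoughRootsOfUnity]
    exact_mod_cast Nat.totient_le q
  have hlogq : Real.log q ≤ (A + 1).factorial * (N : ℝ) / L ^ A := by
    rw [le_div_iff₀ (by positivity)]
    have h2 : Real.log q ≤ L := (Real.log_le_sub_one_of_pos (by linarith)).trans (by linarith)
    have h3 : L ^ (A + 1) / (A + 1).factorial ≤ N := by
      have := Real.pow_div_factorial_le_exp L hL.le (A + 1)
      rwa [hLdef, Real.exp_log hN0, ← hLdef] at this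
    rw [div_le_iff₀ (by positivity)] at h3
    have h4 : 0 ≤ Real.log q := Real.log_natCast_nonneg q
    calc Real.log q * L ^ A ≤ L * L ^ A := mul_le_mul_of_nonneg_right h2 (by positivity)
      _ = L ^ (A + 1) := by ring
      _ ≤ N * (A + 1).factorial := h3
      _ = _ := by ring
  have hmain : ‖((q.totient * fW 0 N q r - N : ℝ) : ℂ)‖ ≤
      (|C1| * N / L ^ A + Real.log q) + q * (|C2| * N / L ^ (A + 1)) := by
    rw [Complex.ofReal_sub, hfour, Complex.ofReal_natCast]
    rw [← Finset.add_sum_erase _ _ (Finset.mem_univ (1 : DirichletCharacter ℂ q))]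
    have e1 : T 1 * conj ((1 : DirichletCharacter ℂ q) r) = T 1 := by
      have : IsUnit (r : ZMod q) := (ZMod.isUnit_iff_coprime r q).2 hc
      rw [MulChar.one_apply this, map_one, mul_one]
    rw [e1]
    have e2 : T 1 + ∑ χ ∈ univ.erase (1 : DirichletCharacter ℂ q), T χ * conj (χ r) - N =
        (T 1 - N) + ∑ χ ∈ univ.erase (1 : DirichletCharacter ℂ q), T χ * conj (χ r) := by ring
    rw [e2]
    refine (norm_add_le _ _).trans (add_le_add hT1 ?_)
    refine (norm_sum_le _ _).trans ?_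
    have h2 : ∀ χ ∈ univ.erase (1 : DirichletCharacter ℂ q), ‖T χ * conj (χ r)‖ ≤
        |C2| * N / L ^ (A + 1) := by
      intro χ hχ
      rw [norm_mul, RCLike.norm_conj]
      have h3 : ‖χ r‖ ≤ 1 := χ.norm_le_one _
      calc ‖T χ‖ * ‖χ r‖ ≤ ‖T χ‖ * 1 := mul_le_mul_of_nonneg_left h3 (norm_nonneg _)
        _ ≤ _ := by
            rw [mul_one]
            exact hTχ χ (Finset.ne_of_mem_erase hχ)
    refine (Finset.sum_le_sum h2).trans ?_
    rw [Finset.sum_const, nsmul_eq_mul]
    refine mul_le_mul_of_nonneg_right ?_ (by positivity)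
    refine le_trans ?_ hcard
    exact_mod_cast Finset.card_le_univ _
  rw [Complex.norm_real, Real.norm_eq_abs] at hmain
  refine hmain.trans ?_
  have h2 : (q : ℝ) * (|C2| * N / L ^ (A + 1)) ≤ |C2| * N / L ^ A := by
    calc (q : ℝ) * (|C2| * N / L ^ (A + 1)) ≤ L * (|C2| * N / L ^ (A + 1)) :=
          mul_le_mul_of_nonneg_right hqL (by positivity)
      _ = |C2| * N / L ^ A := by
          field_simp
          ring
  have h3 : 0 ≤ (N : ℝ) / L ^ A := by positivity
  calc (|C1| * N / L ^ A + Real.log q) + q * (|C2| * N / L ^ (A + 1))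
      ≤ (|C1| * N / L ^ A + (A + 1).factorial * (N : ℝ) / L ^ A) + |C2| * N / L ^ A := by
        linarith
    _ = (|C1| + |C2| + (A + 1).factorial) * (N / L ^ A) := by ring
    _ ≤ (|C1| + |C2| + (A + 1).factorial + 1) * (N / L ^ A) := by
        refine mul_le_mul_of_nonneg_right (by linarith) h3
    _ = _ := by ring

/-- trivial bound -/
lemma fW_trivial (N q r : ℕ) : fW 0 N q r ≤ 2 * N := by
  have h1 : fW 0 N q r ≤ ∑ p ∈ wp 0 N, Real.log p := by
    unfold fW
    exact Finset.sum_le_sum_of_subset_of_nonneg (Finset.filter_subset _ _)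
      fun p _ _ => Real.log_natCast_nonneg p
  have h2 : Chebyshev.theta (N : ℝ) = ∑ p ∈ wp 0 N, Real.log p := by
    rw [Chebyshev.theta, Nat.floor_natCast]
    unfold wp
    rw [zero_add]
  rw [← h2] at h1
  refine h1.trans ((Chebyshev.theta_le_log4_mul_x (Nat.cast_nonneg N)).trans ?_)
  have h4 : Real.log 4 ≤ 2 := by
    have : Real.log 4 = 2 * Real.log 2 := by
      rw [show (4 : ℝ) = 2 ^ 2 by norm_num, Real.log_pow]
      norm_num
    have := Real.log_two_lt_d9
    linarith
  exact mul_le_mul_of_nonneg_right h4 (Nat.cast_nonneg N)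

lemma fW_nonneg (M N q r : ℕ) : 0 ≤ fW M N q r :=
  Finset.sum_nonneg fun p _ => Real.log_natCast_nonneg p

end Pool.Agent.H37.SFG
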